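import Pool.Agent.H59.L.T374d34.N483.KM.Stm

/-!
# Project KM (helper483), subtask 3174: tail estimate on all levels (helper157)
-/

set_option autoImplicit false

namespace Pool.Agent.N157.KM

open MeasureTheory Set Filter Topology
open scoped ENNReal InnerProductSpace
open Pool.Agent.R754.KG (E)
open Pool.Agent.R755.KF (PB)
open Pool.Agent.N483.KM

section
variable {k : ℕ} {ν : Measure (E k)} [IsProbabilityMeasure ν]

theorem CR_mono {p ρ ρ' : ℝ} (h : CR ν p ρ) (hle : ρ ≤ ρ') : CR ν p ρ' := by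
  intro B hB hp
  exact (h B hB hp).trans_le (measureReal_mono (Metric.thickening_mono hle B))

theorem CR_big {B0 p : ℝ} (hb : ∀ᵐ x ∂ν, ‖x‖ ≤ B0) (hp : 0 < p) : CR ν p (2 * |B0| + 1) := by
  intro B hB hpB
  have hpos : ν B ≠ 0 := by
    intro h0
    have : ν.real B = 0 := by rw [Measure.real, h0, ENNReal.toReal_zero]
    linarith
  obtain ⟨x, hxB, hx⟩ : ∃ x ∈ B, ‖x‖ ≤ B0 := by
    by_contra hcon
    push Not at hcon
    apply hpos
    refine measure_mono_null ?_ (ae_iff.1 hb)
    intro x hx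
    exact not_le.2 (hcon x hx)
  have hsub : {y : E k | ‖y‖ ≤ B0} ⊆ Metric.thickening (2 * |B0| + 1) B := by
    intro y hy
    rw [Metric.mem_thickening_iff]
    refine ⟨x, hxB, ?_⟩
    have h1 : dist y x ≤ ‖y‖ + ‖x‖ := by
      rw [dist_eq_norm]
      exact norm_sub_le _ _
    have h2 : ‖y‖ ≤ B0 := hy
    have h3 := le_abs_self B0
    linarith
  have h1 : ν {y : E k | ‖y‖ ≤ B0} = 1 := by
    rw [← measure_univ (μ := ν)]
    apply measure_congr
    filter_upwards [hb] with y hy
    exact propext ⟨fun _ => trivial, fun _ => hy⟩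
  have h2 : ν.real {y : E k | ‖y‖ ≤ B0} = 1 := by
    rw [Measure.real, h1, ENNReal.toReal_one]
  have h3 := measureReal_mono (μ := ν) hsub
  rw [h2] at h3
  linarith

end

/-- ALL -/
theorem t_ALL (h : S_STEP) : S_ALL := by
  obtain ⟨j0, hj0, hstep⟩ := h
  refine ⟨j0, hj0, ?_⟩
  intro k ν B0 r hPB hPLS hr hCR
  have hprob := hPB.prob
  set S : ℕ → Set ℝ := fun j => {ρ | 0 < ρ ∧ CR ν ((1 / 4) ^ j) ρ} with hS
  set M : ℝ := 2 * |B0| + 1 with hM
  have hM0 : 0 < M := by positivity
  have hne : ∀ j, M ∈ S j := fun j => ⟨hM0, CR_big hPB.bdd (by positivity)⟩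
  have hbd : ∀ j, BddBelow (S j) := fun j => ⟨0, fun ρ hρ => hρ.1.le⟩
  set R : ℕ → ℝ := fun j => sInf (S j) with hR
  have hR0 : ∀ j, 0 ≤ R j := fun j => le_csInf ⟨_, hne j⟩ (fun ρ hρ => hρ.1.le)
  have hRM : ∀ j, R j ≤ M := fun j => csInf_le (hbd j) (hne j)
  have hRle : ∀ j ρ, 0 < ρ → CR ν ((1 / 4) ^ j) ρ → R j ≤ ρ := fun j ρ h1 h2 =>
    csInf_le (hbd j) ⟨h1, h2⟩
  have hgt : ∀ j ρ, R j < ρ → CR ν ((1 / 4) ^ j) ρ := by
    intro j ρ hρ
    obtain ⟨ρ', h1, h2⟩ := exists_lt_of_csInf_lt ⟨_, hne j⟩ hρ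
    exact CR_mono h1.2 h2.le
  -- the key step
  have hkey : ∀ j, j0 ≤ j + 1 → 0 < R (j + 1) → R (j + 2) < 21 / 10 * R (j + 1) →
      9 / 10 * R (j + 1) ≤ R j := by
    intro j hj hpos hlt
    have h1 : EN ν ((1 / 4) ^ (j + 1 + 1)) (21 / 10 * R (j + 1)) (1 / 2) := by
      intro B hB hp
      exact (hgt (j + 2) _ hlt B hB hp).le
    have h2 := hstep k ν B0 (R (j + 1)) (j + 1) hPB hPLS hj hpos h1
    have h3 : ∀ ρ', R j < ρ' → 9 / 10 * R (j + 1) ≤ ρ' := by
      intro ρ' hρ'
      have hρ0 : 0 < ρ' := (hR0 j).trans_lt hρ'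
      have h4 : CR ν ((1 / 4) ^ (j + 1)) (ρ' + R (j + 1) / 10) := by
        intro B hB hp
        have h5 := h2 B hB hp
        have h6 : (4 : ℝ) * (1 / 4) ^ (j + 1) = (1 / 4) ^ j := by
          rw [pow_succ]; ring
        rw [h6] at h5
        have h7 := hgt j ρ' hρ' _ Metric.isOpen_thickening.measurableSet h5
        exact h7.trans_le (measureReal_mono (Metric.thickening_thickening_subset _ _ _))
      have := hRle (j + 1) _ (by positivity) h4
      linarith
    exact le_of_forall_gt_imp_ge_of_dense h3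
  -- no fast growth
  have hslow : ∀ j, j0 ≤ j + 1 → 9 / 10 * R (j + 1) ≤ R j := by
    intro j hj
    by_contra hcon
    rw [not_le] at hcon
    have hind : ∀ i, R (j + i) < 9 / 10 * R (j + i + 1) ∧ (21 / 10) ^ i * R (j + 1) ≤ R (j + i + 1) := by
      intro i
      induction i with
      | zero => exact ⟨hcon, by simp⟩
      | succ i ih =>
        obtain ⟨ih1, ih2⟩ := ih
        have hpos : 0 < R (j + i + 1) := by
          have := hR0 (j + i)
          linarith
        have h1 : 21 / 10 * R (j + i + 1) ≤ R (j + i + 2) := by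
          by_contra hc
          rw [not_le] at hc
          have := hkey (j + i) (by omega) hpos hc
          linarith
        have e1 : j + (i + 1) = j + i + 1 := by ring
        rw [e1]
        refine ⟨?_, ?_⟩
        · have : R (j + i + 1 + 1) = R (j + i + 2) := rfl
          rw [this]
          linarith
        · have : R (j + i + 1 + 1) = R (j + i + 2) := rfl
          rw [this, pow_succ]
          linarith
    have hpos : 0 < R (j + 1) := by
      have := hR0 j
      linarith
    obtain ⟨i, hi⟩ := pow_unbounded_of_one_lt (M / R (j + 1)) (by norm_num : (1 : ℝ) < 21 / 10)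
    rw [div_lt_iff₀ hpos] at hi
    have := (hind i).2
    have := hRM (j + i + 1)
    linarith
  intro i
  rcases Nat.eq_zero_or_pos i with rfl | hi
  · simpa using hCR
  · have hall : ∀ i, R (j0 + i) ≤ (10 / 9) ^ i * r := by
      intro i
      induction i with
      | zero =>
        have := hRle j0 r hr hCR
        simpa using this
      | succ i ih =>
        have := hslow (j0 + i) (by omega)
        have e1 : j0 + (i + 1) = j0 + i + 1 := by ring
        rw [e1, pow_succ]
        linarith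
    apply hgt
    refine (hall i).trans_lt ?_
    apply mul_lt_mul_of_pos_right _ hr
    exact pow_lt_pow_left₀ (by norm_num) (by norm_num) (by omega)


end Pool.Agent.N157.KM
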